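import Pool.Agent.Helper60.G1.Step

/-!
# MP_e98778_an (full), module G1: INSERTION of a saddle connection by flips

`step`: if a saddle connection `Sad h v l` of the triangulation `T` crosses only edges outside `E`,
then its tallest crossed edge `e` can be flipped; after the flip the saddle connection is the new
edge, or it is a saddle connection with a smaller natural number `measH`. In all charts the germ at
the start is the same.

`insertion`: it is an edge of a triangulation reachable by flips outside `E`.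
-/

set_option autoImplicit false

open Pool.Agent.Helper87.LS Pool.Agent.Helper79.G

namespace Pool.Agent.Helper60.G1

variable {H : Type}

/-- The natural number which decreases: for every state the number of points of `V` which are
strictly between the ends of the crossed edge. -/
noncomputable def measH (T : Tri H) (V : Finset ℂ) (v : ℂ) (l : List (H × ℂ)) : ℕ :=
  (l.map (fun s => cnt V v (s.2 + T.vec s.1) s.2)).sum

/-- From leaving states to entering states. -/
def conv (T : Tri H) (s : H × ℂ) : H × ℂ := (T.opp s.1, s.2 + T.vec s.1)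

/-- From entering states to leaving states. -/
def cinv (T : Tri H) (s : H × ℂ) : H × ℂ := (T.opp s.1, s.2 + T.vec s.1)

lemma cinv_conv (T : Tri H) (s : H × ℂ) : cinv T (conv T s) = s := by
  unfold cinv conv
  ext
  · simp [T.opp2]
  · simp [T.vec_opp]

lemma conv_cinv (T : Tri H) (s : H × ℂ) : conv T (cinv T s) = s := cinv_conv T s

lemma apex_conv (T : Tri H) (g : H) (p : ℂ) :
    T.apex (conv T (g, p)) = p + T.vec (T.next (T.opp g)) := by
  simp only [Tri.apex, conv, T.vec_opp]; ring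

lemma up_conv (T : Tri H) (g : H) (p : ℂ) :
    T.up (conv T (g, p)) = conv T (T.next (T.opp g), p) := by
  unfold Tri.up
  rw [apex_conv]
  rfl

lemma dn_conv (T : Tri H) (g : H) (p : ℂ) :
    T.dn (conv T (g, p)) = conv T (T.prev (T.opp g), p + T.vec (T.next (T.opp g))) := by
  unfold Tri.dn conv
  ext
  · rfl
  · have h := vec_sum T (T.opp g)
    rw [T.vec_opp] at h
    simp only
    linear_combination -h

/-- Runs give `Hits`. -/
lemma hits_of_run {T : Tri H} {v : ℂ} {g : H} {p : ℂ} {l : List (H × ℂ)}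
    (hr : Run T v g p l) : T.Hits v (conv T (g, p)) (l.map (conv T)) := by
  induction hr with
  | @last g p h1 h2 h3 => exact Tri.Hits.hit (by rw [apex_conv]; exact h3)
  | @up g p l1 h1 h2 h3 h4 ih =>
    rw [List.map_cons]
    refine Tri.Hits.up (by rw [apex_conv]; exact h3) ?_
    rw [up_conv]; exact ih
  | @down g p l1 h1 h2 h3 h4 ih =>
    rw [List.map_cons]
    refine Tri.Hits.dn (by rw [apex_conv]; exact h3) ?_
    rw [dn_conv]; exact ih

lemma crs_up {T : Tri H} {v : ℂ} {s : H × ℂ} (hc : T.Crs v s) (h : 0 < cr v (T.apex s)) :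
    T.Crs v (T.up s) := by
  refine ⟨h, ?_⟩
  have : (T.up s).2 + T.vec (T.up s).1 = s.2 + T.vec s.1 := by
    simp only [Tri.up, Tri.apex, T.vec_opp]; ring
  rw [this]; exact hc.2

lemma crs_dn {T : Tri H} {v : ℂ} {s : H × ℂ} (hc : T.Crs v s) (h : cr v (T.apex s) < 0) :
    T.Crs v (T.dn s) := by
  refine ⟨hc.1, ?_⟩
  have : (T.dn s).2 + T.vec (T.dn s).1 = T.apex s := by
    have h5 := vec_sum T s.1
    simp only [Tri.dn, Tri.apex, T.vec_opp]
    linear_combination -h5
  rw [this]; exact h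

/-- `Hits` gives runs. -/
lemma run_of_hits {T : Tri H} {v : ℂ} {s : H × ℂ} {l : List (H × ℂ)} (hr : T.Hits v s l) :
    T.Crs v s → ∀ g p, s = conv T (g, p) → Run T v g p (l.map (cinv T)) := by
  induction hr with
  | @hit s h =>
    intro hc g p hs
    subst hs
    rw [List.map_cons, cinv_conv, List.map_nil]
    obtain ⟨h1, h2⟩ := hc
    refine Run.last ?_ h1 (by rw [← apex_conv]; exact h)
    have : (conv T (g, p)).2 + T.vec (conv T (g, p)).1 = p := by
      simp only [conv, T.vec_opp]; ring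
    rw [this] at h2; exact h2
  | @up s l h h4 ih =>
    intro hc g p hs
    have hc2 := crs_up hc h
    subst hs
    rw [List.map_cons, cinv_conv]
    obtain ⟨h1, h2⟩ := hc
    have h3 : (conv T (g, p)).2 + T.vec (conv T (g, p)).1 = p := by
      simp only [conv, T.vec_opp]; ring
    rw [h3] at h2
    exact Run.up h2 h1 (by rw [← apex_conv]; exact h) (ih hc2 _ _ (up_conv T g p))
  | @dn s l h h4 ih =>
    intro hc g p hs
    have hc2 := crs_dn hc h
    subst hs
    rw [List.map_cons, cinv_conv]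
    obtain ⟨h1, h2⟩ := hc
    have h3 : (conv T (g, p)).2 + T.vec (conv T (g, p)).1 = p := by
      simp only [conv, T.vec_opp]; ring
    rw [h3] at h2
    exact Run.down h2 h1 (by rw [← apex_conv]; exact h) (ih hc2 _ _ (dn_conv T g p))

lemma cst_eq (T : Tri H) (h : H) : T.cst h = conv T (T.next h, T.vec h) := by
  unfold Tri.cst conv
  ext
  · rfl
  · simp only
    linear_combination -(vec_sum T h)

lemma crs_cst {T : Tri H} {h : H} {v : ℂ} (hi : T.Into h v) : T.Crs v (T.cst h) := by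
  refine ⟨hi.2, ?_⟩
  have : (T.cst h).2 + T.vec (T.cst h).1 = T.vec h := by
    simp only [Tri.cst, T.vec_opp]
    linear_combination -(vec_sum T h)
  rw [this, cr_swap]
  linarith [hi.1]

/-- `Sad` in terms of `Run`. -/
lemma run_of_sad {T : Tri H} {v : ℂ} {h : H} {l : List (H × ℂ)} (hs : T.Sad h v l) :
    Run T v (T.next h) (T.vec h) (l.map (cinv T)) :=
  run_of_hits hs.2 (crs_cst hs.1) _ _ (cst_eq T h)

lemma sad_of_run {T : Tri H} {v : ℂ} {h : H} {l : List (H × ℂ)} (hi : T.Into h v)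
    (hr : Run T v (T.next h) (T.vec h) l) : T.Sad h v (l.map (conv T)) := by
  refine ⟨hi, ?_⟩
  rw [cst_eq]
  exact hits_of_run hr

lemma meas_cinv (T : Tri H) (V : Finset ℂ) (v : ℂ) (l : List (H × ℂ)) :
    meas T V v (l.map (cinv T)) = measH T V v l := by
  unfold meas measH
  rw [List.map_map]
  congr 1
  apply List.map_congr_left
  intro s _
  simp only [Function.comp, cinv, T.vec_opp]
  congr 1
  ring

lemma measH_conv (T : Tri H) (V : Finset ℂ) (v : ℂ) (l : List (H × ℂ)) :
    measH T V v (l.map (conv T)) = meas T V v l := by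
  rw [← meas_cinv, List.map_map]
  congr 1
  conv_rhs => rw [← List.map_id l]
  apply List.map_congr_left
  intro s _
  exact cinv_conv T s

lemma sad_ne {T : Tri H} {v : ℂ} {h : H} {l : List (H × ℂ)} (hs : T.Sad h v l) : v ≠ 0 := by
  rintro rfl
  have := hs.1.1
  simp [cr] at this

/-- Points of the segment near the start of a saddle connection are regular. -/
lemma into_reg {T : Tri H} {h : H} {v : ℂ} (hi : T.Into h v) :
    ∃ ε > 0, ∀ t ∈ Set.Ioo (0 : ℝ) ε, T.Reg h (t * v) := by
  have hp := T.pos h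
  obtain ⟨i1, i2⟩ := hi
  set M : ℝ := |cr (T.vec (T.next h)) v| + 1 with hM
  have hM0 : 0 < M := by positivity
  refine ⟨cr (T.vec h) (T.vec (T.next h)) / M, by positivity, fun t ht => ?_⟩
  have h0 : 0 < T.a0 h (t * v) := by
    have : T.a0 h (t * v) = t * cr (T.vec h) v := by
      simp only [Tri.a0, cr, Complex.mul_re, Complex.mul_im, Complex.ofReal_re, Complex.ofReal_im]
      ring
    rw [this]; exact mul_pos ht.1 i1
  have h2 : 0 < T.a2 h (t * v) := by
    have : T.a2 h (t * v) = t * cr v (-T.vec (T.prev h)) := by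
      simp only [Tri.a2, cr, Complex.mul_re, Complex.mul_im, Complex.ofReal_re, Complex.ofReal_im,
        Complex.neg_re, Complex.neg_im]
      ring
    rw [this]; exact mul_pos ht.1 i2
  have h1 : 0 < T.a1 h (t * v) := by
    have h3 : T.a1 h (t * v) = cr (T.vec h) (T.vec (T.next h)) + t * cr (T.vec (T.next h)) v := by
      simp only [Tri.a1, cr, Complex.mul_re, Complex.mul_im, Complex.ofReal_re, Complex.ofReal_im,
        Complex.sub_re, Complex.sub_im]
      ring
    rw [h3]
    have h4 : t * M < cr (T.vec h) (T.vec (T.next h)) := by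
      have := ht.2
      rwa [lt_div_iff₀ hM0] at this
    have h5 : -(t * M) ≤ t * cr (T.vec (T.next h)) v := by
      have h6 := neg_abs_le (cr (T.vec (T.next h)) v)
      have h7 : -M ≤ cr (T.vec (T.next h)) v := by rw [hM]; linarith
      nlinarith [ht.1]
    linarith
  exact ⟨h0.le, h1.le, h2.le, by linarith, by linarith, by linarith⟩

/-- The germ of the start of the saddle connection in the quadrilateral. -/
lemma germ_quad {X : Type} {T : Tri H} (C : Chart T X) {e : H} {v : ℂ}
    (hi : T.Into (T.prev e) v) :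
    ∃ ε > 0, ∀ t ∈ Set.Ioo (0 : ℝ) ε,
      C.quad e (t * v - T.vec (T.prev e)) = C.φ (T.prev e) (t * v) := by
  obtain ⟨ε, hε, h1⟩ := into_reg hi
  refine ⟨ε, hε, fun t ht => ?_⟩
  have hr := h1 t ht
  have h2 := C.rot (T.prev e) _ hr
  rw [next_prev] at h2
  unfold Chart.quad
  rw [if_pos, h2]
  -- the second barycentric coordinate
  have h3 : T.a1 (T.prev e) (t * v) = cr (T.vec e) (t * v - T.vec (T.prev e)) := by
    unfold Tri.a1; rw [next_prev]
  rw [← h3]
  exact hr.2.1

/-- INSERTION STEP. -/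
theorem step {T : Tri H} {E : Set H} (hE : ∀ h, h ∈ E → T.opp h ∈ E) (V : Finset ℂ) {h : H}
    {v : ℂ} {l : List (H × ℂ)} (hs : T.Sad h v l) (hl : ∀ s ∈ l, s.1 ∉ E) (hV0 : (0 : ℂ) ∈ V)
    (hV : ∀ s ∈ l, s.2 ∈ V ∧ s.2 + T.vec s.1 ∈ V) :
    ∃ (e : H) (he : T.Flippable e), e ∉ E ∧ T.opp e ∉ E ∧
      ((h = T.prev e ∧ (T.flip e he).vec (T.opp e) = v) ∨
      ∃ h1 l1, (T.Out e h ∧ h1 = h ∨ h = T.prev e ∧ (h1 = T.prev e ∨ h1 = T.opp e)) ∧
        (T.flip e he).Sad h1 v l1 ∧ (∀ s ∈ l1, s.1 ∉ E) ∧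
        (∀ s ∈ l1, s.2 ∈ V ∧ s.2 + (T.flip e he).vec s.1 ∈ V) ∧
        measH (T.flip e he) V v l1 < measH T V v l) := by
  have hv := sad_ne hs
  have hr := run_of_sad hs
  have hEo : ∀ h, T.opp h ∈ E → h ∈ E := fun h hh => by
    have := hE _ hh
    rwa [T.opp2] at this
  set l0 := l.map (cinv T) with hl0
  have hl0ne : l0 ≠ [] := by
    intro h0
    have := hr.head.2.2
    rw [h0] at this; simp at this
  have hE0 : ∀ s ∈ l0, s.1 ∉ E := by
    intro s hs0
    obtain ⟨s', hs', rfl⟩ := List.mem_map.1 hs0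
    intro h0
    exact hl s' hs' (hEo _ h0)
  have hV1 : ∀ s ∈ l0, s.2 ∈ V ∧ s.2 + T.vec s.1 ∈ V := by
    intro s hs0
    obtain ⟨s', hs', rfl⟩ := List.mem_map.1 hs0
    obtain ⟨h1, h2⟩ := hV s' hs'
    refine ⟨h2, ?_⟩
    have : (cinv T s').2 + T.vec (cinv T s').1 = s'.2 := by
      simp only [cinv, T.vec_opp]; ring
    rw [this]; exact h1
  obtain ⟨s, hs0, hm⟩ := exists_tallest T v l0 hl0ne
  have ht := tall_of_max hv hs.1 hr hs0 hm
  have he := ht.flippable
  have hf := isFlip_flip T s.1 he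
  have heE : s.1 ∉ E := hE0 s hs0
  have heE' : T.opp s.1 ∉ E := fun h0 => heE (hEo _ h0)
  refine ⟨s.1, he, heE, heE', ?_⟩
  rcases flip_saddle hf ht V hs.1 hr hV0 hV1 ⟨s, hs0, rfl⟩ with h1 |
    ⟨h1, l1, c1, c2, c3, c4, c5, c6⟩
  · exact Or.inl h1
  · right
    refine ⟨h1, l1.map (conv (T.flip s.1 he)), c1, sad_of_run c2 c3, ?_, ?_, ?_⟩
    · intro s' hs'
      obtain ⟨s2, hs2, rfl⟩ := List.mem_map.1 hs'
      change T.opp s2.1 ∉ E
      intro h0
      have h0' := hEo _ h0
      rcases c5 s2 hs2 with ⟨s3, hs3, h3⟩ | h3 | h3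
      · exact hE0 s3 hs3 (by rw [h3]; exact h0')
      · exact heE (by rw [← h3]; exact h0')
      · exact heE' (by rw [← h3]; exact h0')
    · intro s' hs'
      obtain ⟨s2, hs2, rfl⟩ := List.mem_map.1 hs'
      obtain ⟨h3, h4⟩ := c4 s2 hs2
      refine ⟨h4, ?_⟩
      have : (conv (T.flip s.1 he) s2).2 + (T.flip s.1 he).vec (conv (T.flip s.1 he) s2).1
          = s2.2 := by
        simp only [conv, (T.flip s.1 he).vec_opp]; ring
      rw [this]; exact h3
    · rw [measH_conv, ← meas_cinv]; exact c6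

/-- The germ of the start is unchanged, in every chart. -/
theorem germ {X : Type} {T : Tri H} (C : Chart T X) {e h h1 : H} {v : ℂ} (hi : T.Into h v)
    (hc : T.Out e h ∧ h1 = h ∨ h = T.prev e ∧ (h1 = T.prev e ∨ h1 = T.opp e)) :
    ∃ ε > 0, ∀ t ∈ Set.Ioo (0 : ℝ) ε, C.flipφ e h1 (t * v) = C.φ h (t * v) := by
  have h6 := T.six e
  rcases hc with ⟨ho, rfl⟩ | ⟨rfl, h2⟩
  · refine ⟨1, one_pos, fun t _ => ?_⟩
    simp [Chart.flipφ, ho.1, ho.2.1, ho.2.2.1, ho.2.2.2.1, ho.2.2.2.2.1, ho.2.2.2.2.2]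
  · obtain ⟨ε, hε, h3⟩ := germ_quad C hi
    refine ⟨ε, hε, fun t ht => ?_⟩
    rw [← h3 t ht]
    rcases h2 with rfl | rfl
    · unfold Chart.flipφ
      rw [if_neg h6.1, if_pos rfl]
    · unfold Chart.flipφ
      rw [if_neg h6.2.2.2.1, if_neg h6.2.2.2.2.2.1, if_neg (Ne.symm h6.2.2.2.2.2.2.2.2.2.1),
        if_pos rfl]

/-- INSERTION: a saddle connection which crosses only edges outside `E` is an edge outside `E` of a
triangulation which is reached by flips outside `E`. -/
theorem insertion (T : Tri H) (E : Set H) (hE : ∀ h, h ∈ E → T.opp h ∈ E) {h : H} {v : ℂ}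
    {l : List (H × ℂ)} (hs : T.Sad h v l) (hl : ∀ s ∈ l, s.1 ∉ E) :
    ∃ T' g, Reach E T T' ∧ g ∉ E ∧ T'.vec g = v := by
  classical
  -- all developed vertices
  set V : Finset ℂ := insert 0 (((l.map (fun s => s.2)).toFinset) ∪
    ((l.map (fun s => s.2 + T.vec s.1)).toFinset)) with hVdef
  have hV0 : (0 : ℂ) ∈ V := by simp [hVdef]
  have hV : ∀ s ∈ l, s.2 ∈ V ∧ s.2 + T.vec s.1 ∈ V := by
    intro s hs'
    constructor
    · rw [hVdef]
      refine Finset.mem_insert_of_mem (Finset.mem_union_left _ ?_)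
      rw [List.mem_toFinset]
      exact List.mem_map.2 ⟨s, hs', rfl⟩
    · rw [hVdef]
      refine Finset.mem_insert_of_mem (Finset.mem_union_right _ ?_)
      rw [List.mem_toFinset]
      exact List.mem_map.2 ⟨s, hs', rfl⟩
  clear_value V
  have main : ∀ n : ℕ, ∀ (T0 : Tri H) (h : H) (l : List (H × ℂ)), Reach E T T0 →
      T0.opp = T.opp → T0.Sad h v l → (∀ s ∈ l, s.1 ∉ E) →
      (∀ s ∈ l, s.2 ∈ V ∧ s.2 + T0.vec s.1 ∈ V) → measH T0 V v l ≤ n →
      ∃ T' g, Reach E T T' ∧ g ∉ E ∧ T'.vec g = v := by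
    intro n
    induction n with
    | zero =>
      intro T0 h l hR ho hs hl hV hn
      obtain ⟨e, he, heE, heE', h1 | ⟨h1, l1, c1, c2, c3, c4, c5⟩⟩ :=
        step (E := E) (by rw [ho]; exact hE) V hs hl hV0 hV
      · exact ⟨T0.flip e he, T0.opp e, Reach.flip e he heE heE' hR, heE', h1.2⟩
      · omega
    | succ n ih =>
      intro T0 h l hR ho hs hl hV hn
      obtain ⟨e, he, heE, heE', h1 | ⟨h1, l1, c1, c2, c3, c4, c5⟩⟩ :=
        step (E := E) (by rw [ho]; exact hE) V hs hl hV0 hV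
      · exact ⟨T0.flip e he, T0.opp e, Reach.flip e he heE heE' hR, heE', h1.2⟩
      · exact ih (T0.flip e he) h1 l1 (Reach.flip e he heE heE' hR) ho c2 c3 c4 (by omega)
  exact main _ T h l Reach.refl rfl hs hl hV le_rfl

end Pool.Agent.Helper60.G1
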