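import Pool.Agent.Helper79.G.Run

/-!
# MP_e98778_an (full), module G1: lexicographic order of plane vectors relative to a direction

`Lp v z`: the vector `z` is positive for the order (height `cr v z`, then scalar product with `v`).
-/

set_option autoImplicit false

open Pool.Agent.Helper87.LS Pool.Agent.Helper79.G

namespace Pool.Agent.Helper60.G1

/-- `z` is positive in the lexicographic order given by `v`. -/
def Lp (v z : ℂ) : Prop := 0 < cr v z ∨ (cr v z = 0 ∧ 0 < v.re * z.re + v.im * z.im)

lemma Lp.nonneg {v z : ℂ} (h : Lp v z) : 0 ≤ cr v z := by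
  rcases h with h | h
  · exact h.le
  · exact h.1.ge

lemma Lp.of_pos {v z : ℂ} (h : 0 < cr v z) : Lp v z := Or.inl h

lemma cr_add_r (v z w : ℂ) : cr v (z + w) = cr v z + cr v w := by
  simp only [cr, Complex.add_re, Complex.add_im]; ring

lemma cr_sub_r (v z w : ℂ) : cr v (z - w) = cr v z - cr v w := by
  simp only [cr, Complex.sub_re, Complex.sub_im]; ring

lemma cr_neg_r (v z : ℂ) : cr v (-z) = -cr v z := by
  simp only [cr, Complex.neg_re, Complex.neg_im]; ring

lemma cr_neg_l (v z : ℂ) : cr (-v) z = -cr v z := by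
  simp only [cr, Complex.neg_re, Complex.neg_im]; ring

lemma cr_self' (v : ℂ) : cr v v = 0 := by simp only [cr]; ring

lemma cr_swap (v z : ℂ) : cr v z = -cr z v := by simp only [cr]; ring

lemma Lp.add {v z w : ℂ} (hz : Lp v z) (hw : Lp v w) : Lp v (z + w) := by
  have h1 := cr_add_r v z w
  rcases hz with hz | ⟨hz, hz'⟩ <;> rcases hw with hw | ⟨hw, hw'⟩
  · exact Or.inl (by rw [h1]; linarith)
  · exact Or.inl (by rw [h1]; linarith)
  · exact Or.inl (by rw [h1]; linarith)
  · refine Or.inr ⟨by rw [h1]; linarith, ?_⟩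
    simp only [Complex.add_re, Complex.add_im]
    nlinarith

lemma Lp.not_neg {v z : ℂ} (hz : Lp v z) : ¬ Lp v (-z) := by
  intro h
  have h1 := cr_neg_r v z
  rcases hz with hz | ⟨hz, hz'⟩ <;> rcases h with hw | ⟨hw, hw'⟩
  · linarith
  · linarith
  · linarith
  · simp only [Complex.neg_re, Complex.neg_im] at hw'
    linarith

lemma Lp.ne_zero {v z : ℂ} (hz : Lp v z) : z ≠ 0 := by
  rintro rfl
  have := hz.not_neg
  rw [neg_zero] at this
  exact this hz

lemma lp_total {v z : ℂ} (hv : v ≠ 0) (hz : z ≠ 0) : Lp v z ∨ Lp v (-z) := by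
  rcases lt_trichotomy (cr v z) 0 with h | h | h
  · right; left; rw [cr_neg_r]; linarith
  · have hn : 0 < v.re ^ 2 + v.im ^ 2 := by
      rcases eq_or_ne v.re 0 with h0 | h0
      · have : v.im ≠ 0 := fun h1 => hv (Complex.ext h0 h1)
        positivity
      · positivity
    have hz' : 0 < z.re ^ 2 + z.im ^ 2 := by
      rcases eq_or_ne z.re 0 with h0 | h0
      · have : z.im ≠ 0 := fun h1 => hz (Complex.ext h0 h1)
        positivity
      · positivity
    have hd : v.re * z.re + v.im * z.im ≠ 0 := by
      intro h0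
      have : (v.re * z.re + v.im * z.im) ^ 2 + (cr v z) ^ 2
          = (v.re ^ 2 + v.im ^ 2) * (z.re ^ 2 + z.im ^ 2) := by simp only [cr]; ring
      rw [h0, h] at this
      have := mul_pos hn hz'
      nlinarith
    rcases lt_or_gt_of_ne hd with h1 | h1
    · right; right
      refine ⟨by rw [cr_neg_r, h, neg_zero], ?_⟩
      simp only [Complex.neg_re, Complex.neg_im]; linarith
    · left; right; exact ⟨h, h1⟩
  · left; left; exact h

/-- Pluecker relation. -/
lemma plucker (v A X W : ℂ) : cr v A * cr X W = cr v X * cr A W + cr v W * cr X A := by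
  simp only [cr]; ring

/-- If `X`, `A`, `W` are in counterclockwise order, `A` has positive height and `X`, `W` are
lexicographically positive, then the turn from `X` to `W` is less than a half turn. -/
lemma lex_convex {v A X W : ℂ} (hA : 0 < cr v A) (hX : Lp v X) (hW : Lp v W)
    (hXA : 0 < cr X A) (hAW : 0 < cr A W) : 0 < cr X W := by
  have hW0 : 0 < cr v W := by
    rcases hW with h | ⟨h, h'⟩
    · exact h
    · exfalso
      -- W is a positive multiple of v
      have h1 : (v.re ^ 2 + v.im ^ 2) * cr A W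
          = (v.re * W.re + v.im * W.im) * cr A v + cr v W * (v.re * A.re + v.im * A.im) := by
        simp only [cr]; ring
      have h2 : cr A v < 0 := by rw [cr_swap]; linarith
      rw [h, zero_mul, add_zero] at h1
      have h3 : 0 ≤ v.re ^ 2 + v.im ^ 2 := by positivity
      nlinarith [mul_nonneg h3 hAW.le, mul_neg_of_pos_of_neg h' h2]
  have hpl := plucker v A X W
  have h4 : 0 < cr v A * cr X W := by
    rw [hpl]
    have := hX.nonneg
    nlinarith [mul_nonneg this hAW.le, mul_pos hW0 hXA]
  exact (pos_iff_pos_of_mul_pos h4).1 hA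

/-- The same at the upper vertex. -/
lemma lex_convex' {v A X W : ℂ} (hA : 0 < cr v A) (hX : Lp v X) (hW : Lp v W)
    (hXA : 0 < cr A X) (hAW : 0 < cr W A) : 0 < cr W X :=
  lex_convex hA hW hX hAW hXA

end Pool.Agent.Helper60.G1
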