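import Pool.Agent.Helper60.G1.Lex

/-!
# MP_e98778_an (full), module G1: straight runs and the effect of a flip on them
-/

set_option autoImplicit false

open Pool.Agent.Helper87.LS Pool.Agent.Helper79.G

namespace Pool.Agent.Helper60.G1

variable {H : Type}

/-- `Run T v g p l`: a straight line through `0` in the direction `v` leaves the triangle of the
dart `g` through the dart `g`, whose starting point is at `p`, and ends in the vertex `v`;
`l` is the list of all crossings (dart, position of its starting point). -/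
inductive Run (T : Tri H) (v : ℂ) : H → ℂ → List (H × ℂ) → Prop
  | last {g : H} {p : ℂ} (h1 : cr v p < 0) (h2 : 0 < cr v (p + T.vec g))
      (h3 : p + T.vec (T.next (T.opp g)) = v) : Run T v g p [(g, p)]
  | up {g : H} {p : ℂ} {l : List (H × ℂ)} (h1 : cr v p < 0) (h2 : 0 < cr v (p + T.vec g))
      (h3 : 0 < cr v (p + T.vec (T.next (T.opp g))))
      (h4 : Run T v (T.next (T.opp g)) p l) : Run T v g p ((g, p) :: l)
  | down {g : H} {p : ℂ} {l : List (H × ℂ)} (h1 : cr v p < 0) (h2 : 0 < cr v (p + T.vec g))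
      (h3 : cr v (p + T.vec (T.next (T.opp g))) < 0)
      (h4 : Run T v (T.prev (T.opp g)) (p + T.vec (T.next (T.opp g))) l) :
      Run T v g p ((g, p) :: l)

/-- `T'` is obtained from `T` by flipping the edge `e`. -/
structure IsFlip (T T' : Tri H) (e : H) : Prop where
  opp : T'.opp = T.opp
  vec_ne : ∀ h, h ≠ e → h ≠ T.opp e → T'.vec h = T.vec h
  next_e : T'.next e = T.prev e
  next_b : T'.next (T.prev e) = T.next (T.opp e)
  next_c : T'.next (T.next (T.opp e)) = e
  next_e' : T'.next (T.opp e) = T.prev (T.opp e)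
  next_d : T'.next (T.prev (T.opp e)) = T.next e
  next_a : T'.next (T.next e) = T.opp e
  next_ne : ∀ h, h ≠ e → h ≠ T.next e → h ≠ T.prev e → h ≠ T.opp e → h ≠ T.next (T.opp e) →
    h ≠ T.prev (T.opp e) → T'.next h = T.next h

/-- The four lexicographic conditions at an edge `e` which is the tallest one of a run. -/
structure Tall (T : Tri H) (v : ℂ) (e : H) : Prop where
  pos : 0 < cr v (T.vec e)
  c : Lp v (T.vec (T.next (T.opp e)))
  d : Lp v (T.vec (T.prev (T.opp e)))
  b : Lp v (-(T.vec (T.prev e)))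
  a : Lp v (-(T.vec (T.next e)))

section basic

variable (T : Tri H)

lemma next_prev (h : H) : T.next (T.prev h) = h := T.next3 h

lemma prev_next (h : H) : T.prev (T.next h) = h := T.next3 h

lemma prev_prev (h : H) : T.prev (T.prev h) = T.next h := by
  unfold Tri.prev; rw [T.next3]

lemma next_inj {x y : H} (h : T.next x = T.next y) : x = y := T.next.injective h

lemma prev_inj {x y : H} (h : T.prev x = T.prev y) : x = y := by
  unfold Tri.prev at h; exact T.next.injective (T.next.injective h)

lemma eq_prev_of_next {x y : H} (h : T.next x = y) : x = T.prev y := by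
  rw [← h, prev_next]

lemma eq_next_of_prev {x y : H} (h : T.prev x = y) : x = T.next y := by
  rw [← h, next_prev]

lemma opp_inj {x y : H} (h : T.opp x = T.opp y) : x = y := T.opp.injective h

lemma eq_opp_comm {x y : H} : T.opp x = y ↔ x = T.opp y := by
  constructor
  · intro h; rw [← h, T.opp2]
  · intro h; rw [h, T.opp2]

lemma vec_sum (h : H) : T.vec h + T.vec (T.next h) + T.vec (T.prev h) = 0 := T.closed h

lemma vec_next_eq (h : H) : T.vec (T.next h) = -(T.vec h) - T.vec (T.prev h) := by
  linear_combination vec_sum T h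

lemma vec_ne_zero (h : H) : T.vec h ≠ 0 := by
  intro h0
  have := T.pos h
  rw [h0] at this
  simp [cr] at this

lemma opp_ne (h : H) : T.opp h ≠ h := by
  intro h0
  have h1 := T.vec_opp h
  rw [h0] at h1
  have : T.vec h = 0 := by
    have h2 : (2 : ℂ) * T.vec h = 0 := by linear_combination h1
    simpa using h2
  exact vec_ne_zero T h this

lemma opp_ne_next (h : H) : T.opp h ≠ T.next h := by
  intro h0
  have h1 := T.vec_opp h
  have h2 := T.pos h
  rw [← h0, h1, cr_neg_r, cr_self'] at h2
  simp at h2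

lemma opp_ne_prev (h : H) : T.opp h ≠ T.prev h := by
  intro h0
  have h1 := T.vec_opp h
  rw [h0] at h1
  have h2 := vec_next_eq T h
  rw [h1] at h2
  exact vec_ne_zero T (T.next h) (by rw [h2]; ring)

lemma tnext_ne (h : H) : T.next h ≠ h := by
  intro h0
  have h2 := T.pos h
  rw [h0, cr_self'] at h2
  exact lt_irrefl _ h2

lemma prev_ne (h : H) : T.prev h ≠ h := by
  intro h0
  have h1 := next_prev T h
  rw [h0] at h1
  exact tnext_ne T h h1

lemma next_ne_prev (h : H) : T.next h ≠ T.prev h := by
  intro h0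
  exact tnext_ne T (T.next h) h0.symm

end basic

lemma Run.head {T : Tri H} {v : ℂ} {g : H} {p : ℂ} {l : List (H × ℂ)} (hr : Run T v g p l) :
    cr v p < 0 ∧ 0 < cr v (p + T.vec g) ∧ (g, p) ∈ l := by
  cases hr with
  | last h1 h2 h3 => exact ⟨h1, h2, by simp⟩
  | up h1 h2 h3 h4 => exact ⟨h1, h2, by simp⟩
  | down h1 h2 h3 h4 => exact ⟨h1, h2, by simp⟩

lemma Run.pos {T : Tri H} {v : ℂ} {g : H} {p : ℂ} {l : List (H × ℂ)} (hr : Run T v g p l) :
    0 < cr v (T.vec g) := by
  obtain ⟨h1, h2, _⟩ := hr.head
  rw [cr_add_r] at h2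
  linarith

/-- Every crossed dart has positive height. -/
lemma Run.pos_mem {T : Tri H} {v : ℂ} {g : H} {p : ℂ} {l : List (H × ℂ)} (hr : Run T v g p l) :
    ∀ s ∈ l, cr v s.2 < 0 ∧ 0 < cr v (s.2 + T.vec s.1) := by
  induction hr with
  | last h1 h2 h3 =>
    intro s hs
    simp only [List.mem_singleton] at hs
    subst hs; exact ⟨h1, h2⟩
  | up h1 h2 h3 h4 ih =>
    intro s hs
    rcases List.mem_cons.1 hs with rfl | hs
    · exact ⟨h1, h2⟩
    · exact ih s hs
  | down h1 h2 h3 h4 ih =>
    intro s hs
    rcases List.mem_cons.1 hs with rfl | hs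
    · exact ⟨h1, h2⟩
    · exact ih s hs

end Pool.Agent.Helper60.G1
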