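import Pool.Agent.Helper60.G1.Trans

/-!
# MP_e98778_an (full), module G1: the tallest crossed edge can be flipped
-/

set_option autoImplicit false

open Pool.Agent.Helper87.LS Pool.Agent.Helper79.G

namespace Pool.Agent.Helper60.G1

variable {H : Type}

/-- The flip of helper79's library satisfies the abstract conditions. -/
theorem isFlip_flip (T : Tri H) (e : H) (he : T.Flippable e) : IsFlip T (T.flip e he) e where
  opp := rfl
  vec_ne := fun _ h1 h2 => T.flipVec_ne h1 h2
  next_e := T.flipNext_e e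
  next_b := T.flipNext_b e
  next_c := T.flipNext_c e
  next_e' := T.flipNext_e' e
  next_d := T.flipNext_d e
  next_a := T.flipNext_a e
  next_ne := fun _ h1 h2 h3 h4 h5 h6 => T.flipNext_out ⟨h1, h2, h3, h4, h5, h6⟩

/-- A tallest edge can be flipped. -/
theorem Tall.flippable {T : Tri H} {v : ℂ} {e : H} (ht : Tall T v e) : T.Flippable e := by
  have h1 := T.pos e
  have h2 := T.pos (T.opp e)
  have h3 := T.pos (T.prev (T.opp e))
  rw [next_prev, T.vec_opp, cr_neg_r] at h3
  rw [T.vec_opp, cr_neg_l] at h2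
  have ha : T.vec (T.next e) = -(T.vec e) - T.vec (T.prev e) := vec_next_eq T e
  constructor
  · have := lex_convex (v := v) (A := T.vec e) (X := T.vec (T.next (T.opp e)))
      (W := -(T.vec (T.prev e))) ht.pos ht.c ht.b
      (by rw [cr_swap]; linarith)
      (by rw [ha, cr_sub_r, cr_neg_r, cr_self'] at h1; rw [cr_neg_r]; linarith)
    rw [cr_neg_r] at this
    rw [cr_swap]; linarith
  · have := lex_convex (v := v) (A := T.vec e) (X := -(T.vec (T.next e)))
      (W := T.vec (T.prev (T.opp e))) ht.pos ht.a ht.d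
      (by rw [cr_neg_l, cr_swap]; linarith)
      (by rw [cr_swap]; linarith)
    rw [cr_neg_l] at this
    rw [cr_swap]; linarith

/-- The state before a state of a run. -/
lemma pred_of_mem {T : Tri H} {v : ℂ} {g : H} {p : ℂ} {l : List (H × ℂ)}
    (hr : Run T v g p l) : ∀ s ∈ l, s.1 = g ∨
      ∃ s0 ∈ l, T.opp s0.1 = T.prev s.1 ∨ T.opp s0.1 = T.next s.1 := by
  induction hr with
  | last h1 h2 h3 =>
    intro s hs
    simp only [List.mem_singleton] at hs
    subst hs; exact Or.inl rfl
  | @up g p l1 h1 h2 h3 h4 ih =>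
    intro s hs
    rcases List.mem_cons.1 hs with rfl | hs
    · exact Or.inl rfl
    · rcases ih s hs with h | ⟨s0, hs0, h⟩
      · exact Or.inr ⟨(g, p), by simp, Or.inl (by rw [h, prev_next])⟩
      · exact Or.inr ⟨s0, by simp [hs0], h⟩
  | @down g p l1 h1 h2 h3 h4 ih =>
    intro s hs
    rcases List.mem_cons.1 hs with rfl | hs
    · exact Or.inl rfl
    · rcases ih s hs with h | ⟨s0, hs0, h⟩
      · exact Or.inr ⟨(g, p), by simp, Or.inr (by rw [h, next_prev])⟩
      · exact Or.inr ⟨s0, by simp [hs0], h⟩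

/-- The state after a state of a run. -/
lemma succ_of_mem {T : Tri H} {v : ℂ} {g : H} {p : ℂ} {l : List (H × ℂ)}
    (hr : Run T v g p l) : ∀ s ∈ l, s.2 + T.vec (T.next (T.opp s.1)) = v ∨
      ∃ s1 ∈ l, s1.1 = T.next (T.opp s.1) ∨ s1.1 = T.prev (T.opp s.1) := by
  induction hr with
  | last h1 h2 h3 =>
    intro s hs
    simp only [List.mem_singleton] at hs
    subst hs; exact Or.inl h3
  | @up g p l1 h1 h2 h3 h4 ih =>
    intro s hs
    rcases List.mem_cons.1 hs with rfl | hs
    · exact Or.inr ⟨_, List.mem_cons_of_mem _ h4.head.2.2, Or.inl rfl⟩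
    · rcases ih s hs with h | ⟨s0, hs0, h⟩
      · exact Or.inl h
      · exact Or.inr ⟨s0, by simp [hs0], h⟩
  | @down g p l1 h1 h2 h3 h4 ih =>
    intro s hs
    rcases List.mem_cons.1 hs with rfl | hs
    · exact Or.inr ⟨_, List.mem_cons_of_mem _ h4.head.2.2, Or.inr rfl⟩
    · rcases ih s hs with h | ⟨s0, hs0, h⟩
      · exact Or.inl h
      · exact Or.inr ⟨s0, by simp [hs0], h⟩

/-- There is a tallest crossed dart. -/
lemma exists_tallest (T : Tri H) (v : ℂ) : ∀ l : List (H × ℂ), l ≠ [] →
    ∃ s ∈ l, ∀ s' ∈ l, ¬ Lp v (T.vec s'.1 - T.vec s.1) := by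
  intro l
  induction l with
  | nil => intro h; exact absurd rfl h
  | cons s l ih =>
    intro _
    by_cases hl : l = []
    · subst hl
      refine ⟨s, by simp, fun s' hs' => ?_⟩
      simp only [List.mem_singleton] at hs'
      subst hs'
      rw [sub_self]
      intro h; exact h.ne_zero rfl
    · obtain ⟨s1, hs1, hm⟩ := ih hl
      by_cases hc : Lp v (T.vec s.1 - T.vec s1.1)
      · refine ⟨s, by simp, fun s' hs' h => ?_⟩
        rcases List.mem_cons.1 hs' with rfl | hs'
        · rw [sub_self] at h; exact h.ne_zero rfl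
        · apply hm s' hs'
          have := h.add hc
          simpa using this
      · refine ⟨s1, by simp [hs1], fun s' hs' h => ?_⟩
        rcases List.mem_cons.1 hs' with rfl | hs'
        · exact hc h
        · exact hm s' hs' h

/-- A tallest crossed dart of a saddle connection satisfies `Tall`. -/
theorem tall_of_max {T : Tri H} {v : ℂ} (hv : v ≠ 0) {h : H} {l : List (H × ℂ)}
    (hi : T.Into h v) (hr : Run T v (T.next h) (T.vec h) l) {s : H × ℂ} (hs : s ∈ l)
    (hm : ∀ s' ∈ l, ¬ Lp v (T.vec s'.1 - T.vec s.1)) : Tall T v s.1 := by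
  have hpos := hr.pos_mem
  have hposv : ∀ s' ∈ l, 0 < cr v (T.vec s'.1) := by
    intro s' hs'
    obtain ⟨h1, h2⟩ := hpos s' hs'
    rw [cr_add_r] at h2; linarith
  have hsum := vec_sum T s.1
  have hsum' := vec_sum T (T.opp s.1)
  rw [T.vec_opp] at hsum'
  -- east side
  have heast : Lp v (T.vec (T.next (T.opp s.1))) ∧ Lp v (T.vec (T.prev (T.opp s.1))) := by
    rcases succ_of_mem hr s hs with h0 | ⟨s1, hs1, h0 | h0⟩
    · obtain ⟨h1, h2⟩ := hpos s hs
      have h3 : T.vec (T.next (T.opp s.1)) = v - s.2 := by rw [← h0]; ring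
      have h4 : T.vec (T.prev (T.opp s.1)) = s.2 + T.vec s.1 - v := by
        rw [← h0]; linear_combination hsum'
      constructor
      · left; rw [h3, cr_sub_r, cr_self']; linarith
      · left; rw [h4, cr_sub_r, cr_self']; linarith
    · have h1 := hposv s1 hs1
      rw [h0] at h1
      refine ⟨Or.inl h1, ?_⟩
      rcases lp_total hv (vec_ne_zero T (T.prev (T.opp s.1))) with h2 | h2
      · exact h2
      · exfalso
        apply hm s1 hs1
        rw [h0]
        have : T.vec (T.next (T.opp s.1)) - T.vec s.1 = -(T.vec (T.prev (T.opp s.1))) := by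
          linear_combination hsum'
        rw [this]; exact h2
    · have h1 := hposv s1 hs1
      rw [h0] at h1
      refine ⟨?_, Or.inl h1⟩
      rcases lp_total hv (vec_ne_zero T (T.next (T.opp s.1))) with h2 | h2
      · exact h2
      · exfalso
        apply hm s1 hs1
        rw [h0]
        have : T.vec (T.prev (T.opp s.1)) - T.vec s.1 = -(T.vec (T.next (T.opp s.1))) := by
          linear_combination hsum'
        rw [this]; exact h2
  -- west side
  have hwest : Lp v (-(T.vec (T.prev s.1))) ∧ Lp v (-(T.vec (T.next s.1))) := by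
    rcases pred_of_mem hr s hs with h0 | ⟨s1, hs1, h0 | h0⟩
    · have h1 : T.prev s.1 = h := by rw [h0, prev_next]
      have h2 : T.next s.1 = T.prev h := by rw [h0]; rfl
      obtain ⟨i1, i2⟩ := hi
      rw [h1, h2]
      refine ⟨Or.inl ?_, Or.inl i2⟩
      rw [cr_neg_r, cr_swap, neg_neg]; exact i1
    · have h1 := hposv s1 hs1
      have h3 : T.vec s1.1 = -(T.vec (T.prev s.1)) := by rw [← h0, T.vec_opp, neg_neg]
      rw [h3] at h1
      refine ⟨Or.inl h1, ?_⟩
      rcases lp_total hv (neg_ne_zero.2 (vec_ne_zero T (T.next s.1))) with h2 | h2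
      · exact h2
      · exfalso
        apply hm s1 hs1
        have : T.vec s1.1 - T.vec s.1 = -(-(T.vec (T.next s.1))) := by
          rw [h3]; linear_combination -hsum
        rw [this]; exact h2
    · have h1 := hposv s1 hs1
      have h3 : T.vec s1.1 = -(T.vec (T.next s.1)) := by rw [← h0, T.vec_opp, neg_neg]
      rw [h3] at h1
      refine ⟨?_, Or.inl h1⟩
      rcases lp_total hv (neg_ne_zero.2 (vec_ne_zero T (T.prev s.1))) with h2 | h2
      · exact h2
      · exfalso
        apply hm s1 hs1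
        have : T.vec s1.1 - T.vec s.1 = -(-(T.vec (T.prev s.1))) := by
          rw [h3]; linear_combination -hsum
        rw [this]; exact h2
  exact ⟨hposv s hs, heast.1, heast.2, hwest.1, hwest.2⟩

/-- The flip of a tallest crossed dart: effect on the whole saddle connection. -/
theorem flip_saddle {T T' : Tri H} {e : H} (hf : IsFlip T T' e) {v : ℂ} (ht : Tall T v e)
    (V : Finset ℂ) {h : H} {l : List (H × ℂ)} (hi : T.Into h v)
    (hr : Run T v (T.next h) (T.vec h) l) (hV0 : (0 : ℂ) ∈ V)
    (hV : ∀ s ∈ l, s.2 ∈ V ∧ s.2 + T.vec s.1 ∈ V) (he : ∃ s ∈ l, s.1 = e) :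
    (h = T.prev e ∧ T'.vec (T.opp e) = v) ∨
    ∃ h1 l1, (T.Out e h ∧ h1 = h ∨ h = T.prev e ∧ (h1 = T.prev e ∨ h1 = T.opp e)) ∧
      T'.Into h1 v ∧ Run T' v (T'.next h1) (T'.vec h1) l1 ∧
      (∀ s ∈ l1, s.2 ∈ V ∧ s.2 + T'.vec s.1 ∈ V) ∧
      (∀ s ∈ l1, (∃ s' ∈ l, s'.1 = s.1) ∨ s.1 = e ∨ s.1 = T.opp e) ∧
      meas T' V v l1 < meas T V v l := by
  have hb0 := ht.b.nonneg
  have ha0 := ht.a.nonneg
  rw [cr_neg_r] at ha0 hb0
  have hve := hf.vec_e
  have hve' := hf.vec_e'
  have hcne : T.next (T.opp e) ≠ e := by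
    intro h
    have := opp_ne_next T (T.opp e)
    rw [T.opp2] at this
    exact this h.symm
  have hvc : T'.vec (T.next (T.opp e)) = T.vec (T.next (T.opp e)) :=
    hf.vec_ne _ hcne (tnext_ne T (T.opp e))
  have hdne : T.prev (T.opp e) ≠ e := by
    intro h
    have := opp_ne_prev T (T.opp e)
    rw [T.opp2] at this
    exact this h.symm
  have hvb : T'.vec (T.prev e) = T.vec (T.prev e) :=
    hf.vec_ne _ (prev_ne T e) (fun h => opp_ne_prev T e h.symm)
  have hva : T'.vec (T.next e) = T.vec (T.next e) :=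
    hf.vec_ne _ (tnext_ne T e) (fun h => opp_ne_next T e h.symm)
  obtain ⟨i1, i2⟩ := hi
  by_cases hh : T.next h = e
  · have hb : h = T.prev e := eq_prev_of_next T hh
    have hpb : T.prev h = T.next e := by rw [hb, prev_prev]
    rw [hh] at hr
    rw [hpb] at i2
    rw [hb] at hr i1
    -- W = 0 is strictly between B = vec b and A
    have hW1 : Lp v (0 - T.vec (T.prev e)) := by rw [zero_sub]; exact ht.b
    have hW2 : Lp v (T.vec (T.prev e) + T.vec e - 0) := by
      have : T.vec (T.prev e) + T.vec e - 0 = -(T.vec (T.next e)) := by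
        linear_combination vec_sum T e
      rw [this]; exact ht.a
    have hcp : 0 < cnt V v (T.vec (T.prev e)) (T.vec (T.prev e) + T.vec e) :=
      cnt_pos hV0 hW1 hW2
    cases hr with
    | last h5 h6 h7 => exact Or.inl ⟨hb, by rw [hve', ← h7]⟩
    | @up _ _ l2 h5 h6 h7 h8 =>
      right
      obtain ⟨l', hr', hV', hm', hme, hme'⟩ := trans_run hf ht V l2.length le_rfl h8 hcne
        (fun s hs => hV s (by simp [hs]))
      refine ⟨T.prev e, l', Or.inr ⟨hb, Or.inl rfl⟩, ⟨?_, ?_⟩, ?_, hV', ?_, ?_⟩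
      · rw [hvb]; exact i1
      · have : T'.prev (T.prev e) = e := by
          change T'.next (T'.next (T.prev e)) = e
          rw [hf.next_b, hf.next_c]
        rw [this, hve]
        have : -(-(T.vec (T.prev e)) - T.vec (T.next (T.opp e)))
            = T.vec (T.prev e) + T.vec (T.next (T.opp e)) := by ring
        rw [this]; exact h7
      · rw [hf.next_b, hvb]; exact hr'
      · intro s hs
        rcases hm' s hs with ⟨s', hs', h⟩ | h
        · exact Or.inl ⟨s', by simp [hs'], h⟩
        · exact Or.inr h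
      · rw [meas_cons]
        simp only
        omega
    | @down _ _ l2 h5 h6 h7 h8 =>
      right
      obtain ⟨l', hr', hV', hm', hme, hme'⟩ := trans_run hf ht V l2.length le_rfl h8 hdne
        (fun s hs => hV s (by simp [hs]))
      have hpr : T'.prev (T.opp e) = T.next e := by
        change T'.next (T'.next (T.opp e)) = T.next e
        rw [hf.next_e', hf.next_d]
      refine ⟨T.opp e, l', Or.inr ⟨hb, Or.inr rfl⟩, ⟨?_, ?_⟩, ?_, hV', ?_, ?_⟩
      · rw [hve', cr_swap]; linarith
      · rw [hpr, hva]; exact i2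
      · rw [hf.next_e', hve']; exact hr'
      · intro s hs
        rcases hm' s hs with ⟨s', hs', h⟩ | h
        · exact Or.inl ⟨s', by simp [hs'], h⟩
        · exact Or.inr h
      · rw [meas_cons]
        simp only
        omega
  · right
    have hout : T.Out e h := by
      refine ⟨?_, ?_, ?_, ?_, ?_, ?_⟩
      · rintro rfl
        rw [cr_swap] at i1
        have := ht.pos
        linarith
      · intro h0
        rw [h0, prev_next, cr_neg_r] at i2
        have := ht.pos
        linarith
      · intro h0; exact hh (by rw [h0, next_prev])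
      · intro h0
        rw [h0, cr_neg_r] at i2
        have := ht.d.nonneg
        linarith
      · intro h0
        rw [h0, cr_swap] at i1
        have := ht.c.nonneg
        linarith
      · intro h0
        rw [h0, cr_swap] at i1
        have := ht.d.nonneg
        linarith
    obtain ⟨l', hr', hV', hm', hme, hme'⟩ := trans_run hf ht V l.length le_rfl hr hh hV
    have hn : T'.next h = T.next h :=
      hf.next_ne h hout.1 hout.2.1 hout.2.2.1 hout.2.2.2.1 hout.2.2.2.2.1 hout.2.2.2.2.2
    have ho2 := hout.next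
    have hn2 : T'.next (T.next h) = T.next (T.next h) :=
      hf.next_ne _ ho2.1 ho2.2.1 ho2.2.2.1 ho2.2.2.2.1 ho2.2.2.2.2.1 ho2.2.2.2.2.2
    have ho3 := ho2.next
    have hp : T'.prev h = T.prev h := by
      unfold Tri.prev; rw [hn, hn2]
    have hvh : T'.vec h = T.vec h := hf.vec_ne h hout.1 hout.2.2.2.1
    have hvp : T'.vec (T.prev h) = T.vec (T.prev h) := hf.vec_ne _ ho3.1 ho3.2.2.2.1
    refine ⟨h, l', Or.inl ⟨hout, rfl⟩, ⟨?_, ?_⟩, ?_, hV', hm', hme' he⟩
    · rw [hvh]; exact i1
    · rw [hp, hvp]; exact i2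
    · rw [hn, hvh]; exact hr'

end Pool.Agent.Helper60.G1
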