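import Pool.Agent.Helper60.G1.Run

/-!
# MP_e98778_an (full), module G1: the run after the flip of its tallest edge
-/

set_option autoImplicit false

open Pool.Agent.Helper87.LS Pool.Agent.Helper79.G

namespace Pool.Agent.Helper60.G1

variable {H : Type}

open Classical in
/-- The number of points of `V` strictly between `b` and `a` in the lexicographic order. -/
noncomputable def cnt (V : Finset ℂ) (v b a : ℂ) : ℕ :=
  (V.filter (fun x => Lp v (x - b) ∧ Lp v (a - x))).card

/-- The total count of a run. -/
noncomputable def meas (T : Tri H) (V : Finset ℂ) (v : ℂ) (l : List (H × ℂ)) : ℕ :=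
  (l.map (fun s => cnt V v s.2 (s.2 + T.vec s.1))).sum

lemma meas_nil (T : Tri H) (V : Finset ℂ) (v : ℂ) : meas T V v [] = 0 := rfl

lemma meas_cons (T : Tri H) (V : Finset ℂ) (v : ℂ) (s : H × ℂ) (l : List (H × ℂ)) :
    meas T V v (s :: l) = cnt V v s.2 (s.2 + T.vec s.1) + meas T V v l := by
  simp [meas]

lemma cnt_pos {V : Finset ℂ} {v b a x : ℂ} (hx : x ∈ V) (h1 : Lp v (x - b)) (h2 : Lp v (a - x)) :
    0 < cnt V v b a := by
  classical
  unfold cnt
  exact Finset.card_pos.2 ⟨x, Finset.mem_filter.2 ⟨hx, h1, h2⟩⟩

/-- The interval `(b', a')` is strictly smaller. -/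
lemma cnt_lt {V : Finset ℂ} {v b a b' a' : ℂ} (hx : a' ∈ V) (h1 : Lp v (b' - b))
    (h2 : Lp v (a - a')) (h3 : Lp v (a' - b)) : cnt V v b' a' < cnt V v b a := by
  classical
  unfold cnt
  apply Finset.card_lt_card
  rw [Finset.ssubset_iff_of_subset]
  · refine ⟨a', Finset.mem_filter.2 ⟨hx, h3, h2⟩, ?_⟩
    intro h
    have h4 := (Finset.mem_filter.1 h).2.2
    rw [sub_self] at h4
    exact h4.ne_zero rfl
  · intro x hx
    obtain ⟨hx1, hx2, hx3⟩ := Finset.mem_filter.1 hx
    refine Finset.mem_filter.2 ⟨hx1, ?_, ?_⟩
    · have := hx2.add h1
      simpa using this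
    · have := h2.add hx3
      simpa using this

section flip

variable {T T' : Tri H} {e : H}

lemma IsFlip.vec_e (hf : IsFlip T T' e) :
    T'.vec e = -(T.vec (T.prev e)) - T.vec (T.next (T.opp e)) := by
  have h1 := T'.closed e
  rw [hf.next_e, hf.next_b, hf.vec_ne _ (prev_ne T e) (fun h => opp_ne_prev T e h.symm),
    hf.vec_ne (T.next (T.opp e)) ?_ (tnext_ne T (T.opp e))] at h1
  · linear_combination h1
  · intro h
    have := opp_ne_next T (T.opp e)
    rw [T.opp2] at this
    exact this h.symm

lemma IsFlip.vec_e' (hf : IsFlip T T' e) :
    T'.vec (T.opp e) = T.vec (T.prev e) + T.vec (T.next (T.opp e)) := by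
  have h1 := T'.vec_opp e
  rw [hf.opp] at h1
  rw [h1, hf.vec_e]; ring

/-- Darts of positive height which are different from `e` keep their vector. -/
lemma vec_keep (hf : IsFlip T T' e) {v : ℂ} (ht : Tall T v e) {g : H} (hg : g ≠ e)
    (hp : 0 < cr v (T.vec g)) : T'.vec g = T.vec g := by
  refine hf.vec_ne g hg ?_
  rintro rfl
  rw [T.vec_opp, cr_neg_r] at hp
  have := ht.pos
  linarith

/-- The darts `opp g`, for `g ≠ e` crossed, which lie in the two triangles at `e`. -/
lemma next_keep (hf : IsFlip T T' e) {v : ℂ} (ht : Tall T v e) {g : H} (hg : g ≠ e)
    (hp : 0 < cr v (T.vec g)) (ha : T.opp g ≠ T.next e) (hb : T.opp g ≠ T.prev e) :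
    T'.next (T.opp g) = T.next (T.opp g) ∧ T'.prev (T.opp g) = T.prev (T.opp g) := by
  have hne : T.opp g ≠ e := by
    intro h
    rw [eq_opp_comm] at h
    rw [h, T.vec_opp, cr_neg_r] at hp
    have := ht.pos
    linarith
  have hne' : T.opp g ≠ T.opp e := fun h => hg (opp_inj T h)
  have hc : T.opp g ≠ T.next (T.opp e) := by
    intro h
    have h1 := T.vec_opp g
    rw [h] at h1
    have h2 := ht.c.nonneg
    rw [h1, cr_neg_r] at h2
    linarith
  have hd : T.opp g ≠ T.prev (T.opp e) := by
    intro h
    have h1 := T.vec_opp g
    rw [h] at h1
    have h2 := ht.d.nonneg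
    rw [h1, cr_neg_r] at h2
    linarith
  have h1 : T'.next (T.opp g) = T.next (T.opp g) := hf.next_ne _ hne ha hb hne' hc hd
  refine ⟨h1, ?_⟩
  unfold Tri.prev
  rw [h1]
  refine hf.next_ne _ ?_ ?_ ?_ ?_ ?_ ?_
  · intro h; exact hb (eq_prev_of_next T h)
  · intro h; exact hne (next_inj T h)
  · intro h
    apply ha
    apply next_inj T
    exact h
  · intro h; exact hd (eq_prev_of_next T h)
  · intro h; exact hne' (next_inj T h)
  · intro h
    apply hc
    apply next_inj T
    exact h

/-- Effect of the flip on a run that does not start with the flipped dart. -/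
theorem trans_run (hf : IsFlip T T' e) {v : ℂ} (ht : Tall T v e) (V : Finset ℂ) :
    ∀ (n : ℕ) {g : H} {p : ℂ} {l : List (H × ℂ)}, l.length ≤ n → Run T v g p l → g ≠ e →
      (∀ s ∈ l, s.2 ∈ V ∧ s.2 + T.vec s.1 ∈ V) →
      ∃ l', Run T' v g p l' ∧ (∀ s ∈ l', s.2 ∈ V ∧ s.2 + T'.vec s.1 ∈ V) ∧
        (∀ s ∈ l', (∃ s' ∈ l, s'.1 = s.1) ∨ s.1 = e ∨ s.1 = T.opp e) ∧
        meas T' V v l' ≤ meas T V v l ∧
        ((∃ s ∈ l, s.1 = e) → meas T' V v l' < meas T V v l) := by
  intro n
  induction n with
  | zero =>
    intro g p l hl hr
    have := hr.head.2.2
    rw [List.length_eq_zero_iff.1 (Nat.le_zero.1 hl)] at this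
    simp at this
  | succ n ih =>
    intro g p l hl hr hg hV
    have hgp := hr.pos
    have hvg := vec_keep hf ht hg hgp
    have hopp : T'.opp g = T.opp g := by rw [hf.opp]
    have hb0 := ht.b.nonneg
    have ha0 := ht.a.nonneg
    rw [cr_neg_r] at ha0 hb0
    -- facts about the flipped edge
    have hve := hf.vec_e
    have hve' := hf.vec_e'
    cases hr with
    | last h1 h2 h3 =>
      have hz : cr v (p + T.vec (T.next (T.opp g))) = 0 := by rw [h3, cr_self']
      have hna : T.opp g ≠ T.next e := by
        intro h
        rw [h] at hz
        have : T.next (T.next e) = T.prev e := rfl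
        rw [this, cr_add_r] at hz
        linarith
      have hnb : T.opp g ≠ T.prev e := by
        intro h
        rw [h, next_prev, cr_add_r] at hz
        have h4 : T.vec g = -(T.vec (T.prev e)) := by
          rw [← h, T.vec_opp, neg_neg]
        have h5 : T.vec e = T.vec g - T.vec (T.next e) := by
          rw [h4]; linear_combination vec_sum T e
        rw [h5, cr_sub_r] at hz
        rw [cr_add_r] at h2
        linarith
      obtain ⟨hn, hpv⟩ := next_keep hf ht hg hgp hna hnb
      refine ⟨[(g, p)], Run.last h1 (by rw [hvg]; exact h2) ?_, ?_, ?_, ?_, ?_⟩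
      · rw [hopp, hn, ← h3, hf.vec_ne]
        · intro h
          have h6 : T.opp g = T.prev e := eq_prev_of_next T h
          exact hnb h6
        · intro h
          -- then the ending vertex would have positive height
          rw [h, T.vec_opp, cr_add_r, cr_neg_r] at hz
          have := ht.pos
          linarith
      · intro s hs
        simp only [List.mem_singleton] at hs
        subst hs
        simp only [hvg]
        exact hV (g, p) (by simp)
      · intro s hs
        simp only [List.mem_singleton] at hs
        subst hs
        exact Or.inl ⟨(g, p), by simp, rfl⟩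
      · simp [meas, hvg]
      · rintro ⟨s, hs, hse⟩
        simp only [List.mem_singleton] at hs
        subst hs
        exact absurd hse hg
    | @up _ _ l1 h1 h2 h3 h4 =>
      have hV0 := hV (g, p) (by simp)
      have hV1 : ∀ s ∈ l1, s.2 ∈ V ∧ s.2 + T.vec s.1 ∈ V := fun s hs => hV s (by simp [hs])
      have hl1 : l1.length ≤ n := by simpa using hl
      have hna : T.opp g ≠ T.next e := by
        intro h
        rw [h] at h3
        have : T.next (T.next e) = T.prev e := rfl
        rw [this, cr_add_r] at h3
        linarith
      by_cases hg1 : T.next (T.opp g) = e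
      · -- the next dart is `e`, entered from `B → W`
        have hb : T.opp g = T.prev e := eq_prev_of_next T hg1
        have hvgb : T.vec g = -(T.vec (T.prev e)) := by rw [← hb, T.vec_opp, neg_neg]
        rw [hg1] at h4 h3
        have hhead := h4.head
        have hn' : T'.next (T.opp g) = T.next (T.opp e) := by rw [hb, hf.next_b]
        have hp' : T'.prev (T.opp g) = e := by
          unfold Tri.prev; rw [hn', hf.next_c]
        have hcne : T.next (T.opp e) ≠ e := by
          intro h
          have := opp_ne_next T (T.opp e)
          rw [T.opp2] at this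
          exact this h.symm
        have hvc : T'.vec (T.next (T.opp e)) = T.vec (T.next (T.opp e)) :=
          hf.vec_ne _ hcne (tnext_ne T (T.opp e))
        have hdne : T.prev (T.opp e) ≠ e := by
          intro h
          have := opp_ne_prev T (T.opp e)
          rw [T.opp2] at this
          exact this h.symm
        -- W is strictly between B and A
        have hW1 : Lp v (p + T.vec g - p) := by
          rw [add_sub_cancel_left, hvgb]; exact ht.b
        have hW2 : Lp v (p + T.vec e - (p + T.vec g)) := by
          have : p + T.vec e - (p + T.vec g) = -(T.vec (T.next e)) := by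
            rw [hvgb]; linear_combination vec_sum T e
          rw [this]; exact ht.a
        have hcp : 0 < cnt V v p (p + T.vec e) := cnt_pos hV0.2 hW1 hW2
        cases h4 with
        | last h5 h6 h7 =>
          refine ⟨[(g, p)], Run.last h1 (by rw [hvg]; exact h2) ?_, ?_, ?_, ?_, ?_⟩
          · rw [hopp, hn', hvc]; exact h7
          · intro s hs
            simp only [List.mem_singleton] at hs
            subst hs
            simp only [hvg]
            exact hV0
          · intro s hs
            simp only [List.mem_singleton] at hs
            subst hs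
            exact Or.inl ⟨(g, p), by simp, rfl⟩
          · simp [meas, hvg]
          · intro _
            simp [meas, hvg, hcp]
        | @up _ _ l2 h5 h6 h7 h8 =>
          have hl2 : l2.length ≤ n := by
            simp only [List.length_cons] at hl1; omega
          obtain ⟨l', hr', hV', hm', hme, hme'⟩ := ih hl2 h8 hcne
            (fun s hs => hV1 s (by simp [hs]))
          refine ⟨(g, p) :: l', Run.up h1 (by rw [hvg]; exact h2) ?_ ?_, ?_, ?_, ?_, ?_⟩
          · rw [hopp, hn', hvc]; exact h7
          · rw [hopp, hn']; exact hr'
          · intro s hs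
            rcases List.mem_cons.1 hs with rfl | hs
            · simp only [hvg]; exact hV0
            · exact hV' s hs
          · intro s hs
            rcases List.mem_cons.1 hs with rfl | hs
            · exact Or.inl ⟨(g, p), by simp, rfl⟩
            · rcases hm' s hs with ⟨s', hs', h⟩ | h
              · exact Or.inl ⟨s', by simp [hs'], h⟩
              · exact Or.inr h
          · simp only [meas_cons, hvg]; omega
          · intro _
            simp only [meas_cons, hvg]; omega
        | @down _ _ l2 h5 h6 h7 h8 =>
          have hl2 : l2.length ≤ n := by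
            simp only [List.length_cons] at hl1; omega
          obtain ⟨l', hr', hV', hm', hme, hme'⟩ := ih hl2 h8 hdne
            (fun s hs => hV1 s (by simp [hs]))
          have hXV : p + T.vec (T.next (T.opp e)) ∈ V :=
            (hV1 (T.prev (T.opp e), p + T.vec (T.next (T.opp e)))
              (by simp [h8.head.2.2])).1
          have hWe : p + T.vec (T.next (T.opp e)) + T'.vec e = p + T.vec g := by
            rw [hve, hvgb]; ring
          have hrun : Run T' v e (p + T.vec (T.next (T.opp e)))
              ((e, p + T.vec (T.next (T.opp e))) :: l') := by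
            refine Run.up h7 (by rw [hWe]; exact h2) ?_ ?_
            · rw [hf.opp, hf.next_e', hf.vec_ne _ hdne (prev_ne T (T.opp e))]
              exact h8.head.2.1
            · rw [hf.opp, hf.next_e']; exact hr'
          have hcl : cnt V v (p + T.vec (T.next (T.opp e)))
              (p + T.vec (T.next (T.opp e)) + T'.vec e) < cnt V v p (p + T.vec e) := by
            rw [hWe]
            refine cnt_lt hV0.2 ?_ hW2 hW1
            rw [add_sub_cancel_left]; exact ht.c
          refine ⟨(g, p) :: (e, p + T.vec (T.next (T.opp e))) :: l',
            Run.down h1 (by rw [hvg]; exact h2) ?_ ?_, ?_, ?_, ?_, ?_⟩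
          · rw [hopp, hn', hvc]; exact h7
          · rw [hopp, hn', hp', hvc]; exact hrun
          · intro s hs
            rcases List.mem_cons.1 hs with rfl | hs
            · simp only [hvg]; exact hV0
            · rcases List.mem_cons.1 hs with rfl | hs
              · exact ⟨hXV, by simp only [hWe]; exact hV0.2⟩
              · exact hV' s hs
          · intro s hs
            rcases List.mem_cons.1 hs with rfl | hs
            · exact Or.inl ⟨(g, p), by simp, rfl⟩
            · rcases List.mem_cons.1 hs with rfl | hs
              · exact Or.inr (Or.inl rfl)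
              · rcases hm' s hs with ⟨s', hs', h⟩ | h
                · exact Or.inl ⟨s', by simp [hs'], h⟩
                · exact Or.inr h
          · simp only [meas_cons, hvg]; omega
          · intro _
            simp only [meas_cons, hvg]; omega
      · -- ordinary step
        have hnb : T.opp g ≠ T.prev e := by
          intro h; exact hg1 (by rw [h, next_prev])
        obtain ⟨hn, hpv⟩ := next_keep hf ht hg hgp hna hnb
        obtain ⟨l', hr', hV', hm', hme, hme'⟩ := ih hl1 h4 hg1 hV1
        have hvk := vec_keep hf ht hg1 h4.pos
        refine ⟨(g, p) :: l', Run.up h1 (by rw [hvg]; exact h2) ?_ ?_, ?_, ?_, ?_, ?_⟩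
        · rw [hopp, hn, hvk]; exact h3
        · rw [hopp, hn]; exact hr'
        · intro s hs
          rcases List.mem_cons.1 hs with rfl | hs
          · simp only [hvg]; exact hV0
          · exact hV' s hs
        · intro s hs
          rcases List.mem_cons.1 hs with rfl | hs
          · exact Or.inl ⟨(g, p), by simp, rfl⟩
          · rcases hm' s hs with ⟨s', hs', h⟩ | h
            · exact Or.inl ⟨s', by simp [hs'], h⟩
            · exact Or.inr h
        · simp only [meas_cons, hvg]; omega
        · rintro ⟨s, hs, hse⟩
          rcases List.mem_cons.1 hs with rfl | hs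
          · exact absurd hse hg
          · have := hme' ⟨s, hs, hse⟩
            simp only [meas_cons, hvg]; omega
    | @down _ _ l1 h1 h2 h3 h4 =>
      have hV0 := hV (g, p) (by simp)
      have hV1 : ∀ s ∈ l1, s.2 ∈ V ∧ s.2 + T.vec s.1 ∈ V := fun s hs => hV s (by simp [hs])
      have hl1 : l1.length ≤ n := by simpa using hl
      have hnb : T.opp g ≠ T.prev e := by
        intro h
        rw [h, next_prev, cr_add_r] at h3
        have h5 : T.vec g = -(T.vec (T.prev e)) := by
          rw [← h, T.vec_opp, neg_neg]
        have h6 : T.vec e = T.vec g - T.vec (T.next e) := by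
          rw [h5]; linear_combination vec_sum T e
        rw [h6, cr_sub_r] at h3
        rw [cr_add_r] at h2
        linarith
      by_cases hg1 : T.prev (T.opp g) = e
      · -- entered from `W → A`
        have ha : T.opp g = T.next e := eq_next_of_prev T hg1
        have hvga : T.vec g = -(T.vec (T.next e)) := by rw [← ha, T.vec_opp, neg_neg]
        have hnn : T.next (T.opp g) = T.prev e := by rw [ha]; rfl
        rw [hg1] at h4
        rw [hnn] at h3 h4
        set q : ℂ := p + T.vec (T.prev e) with hq
        have hn' : T'.next (T.opp g) = T.opp e := by rw [ha, hf.next_a]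
        have hp' : T'.prev (T.opp g) = T.prev (T.opp e) := by
          unfold Tri.prev; rw [hn', hf.next_e']; rfl
        have hcne : T.next (T.opp e) ≠ e := by
          intro h
          have := opp_ne_next T (T.opp e)
          rw [T.opp2] at this
          exact this h.symm
        have hvc : T'.vec (T.next (T.opp e)) = T.vec (T.next (T.opp e)) :=
          hf.vec_ne _ hcne (tnext_ne T (T.opp e))
        have hdne : T.prev (T.opp e) ≠ e := by
          intro h
          have := opp_ne_prev T (T.opp e)
          rw [T.opp2] at this
          exact this h.symm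
        have hX : p + T'.vec (T.opp e) = q + T.vec (T.next (T.opp e)) := by
          rw [hve', hq]; ring
        -- W = p is strictly between B = q and A
        have hW1 : Lp v (p - q) := by
          have : p - q = -(T.vec (T.prev e)) := by rw [hq]; ring
          rw [this]; exact ht.b
        have hW2 : Lp v (q + T.vec e - p) := by
          have : q + T.vec e - p = -(T.vec (T.next e)) := by
            rw [hq]; linear_combination vec_sum T e
          rw [this]; exact ht.a
        have hcp : 0 < cnt V v q (q + T.vec e) := cnt_pos hV0.1 hW1 hW2
        cases h4 with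
        | last h5 h6 h7 =>
          refine ⟨[(g, p)], Run.last h1 (by rw [hvg]; exact h2) ?_, ?_, ?_, ?_, ?_⟩
          · rw [hopp, hn', hX]; exact h7
          · intro s hs
            simp only [List.mem_singleton] at hs
            subst hs
            simp only [hvg]
            exact hV0
          · intro s hs
            simp only [List.mem_singleton] at hs
            subst hs
            exact Or.inl ⟨(g, p), by simp, rfl⟩
          · simp [meas, hvg]
          · intro _
            simp [meas, hvg, hcp]
        | @up _ _ l2 h5 h6 h7 h8 =>
          have hl2 : l2.length ≤ n := by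
            simp only [List.length_cons] at hl1; omega
          obtain ⟨l', hr', hV', hm', hme, hme'⟩ := ih hl2 h8 hcne
            (fun s hs => hV1 s (by simp [hs]))
          have hXV : q + T.vec (T.next (T.opp e)) ∈ V :=
            (hV1 (T.next (T.opp e), q) (by simp [h8.head.2.2])).2
          have hBe : p + T'.vec (T'.next e) = q := by rw [hf.next_e, hf.vec_ne _ (prev_ne T e)
            (fun h => opp_ne_prev T e h.symm)]
          have hrun : Run T' v (T.opp e) p ((T.opp e, p) :: l') := by
            have hoe : T'.opp (T.opp e) = e := by rw [hf.opp, T.opp2]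
            refine Run.down h1 (by rw [hX]; exact h7) ?_ ?_
            · rw [hoe, hBe]; exact h3
            · have : T'.prev e = T.next (T.opp e) := by
                unfold Tri.prev; rw [hf.next_e, hf.next_b]
              rw [hoe, hBe, this]; exact hr'
          have hcl : cnt V v p (p + T'.vec (T.opp e)) < cnt V v q (q + T.vec e) := by
            rw [hX]
            refine cnt_lt hXV hW1 ?_ ?_
            · have : q + T.vec e - (q + T.vec (T.next (T.opp e))) = T.vec (T.prev (T.opp e)) := by
                have h9 := vec_sum T (T.opp e)
                rw [T.vec_opp] at h9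
                linear_combination (-1 : ℂ) * h9
              rw [this]; exact ht.d
            · rw [add_sub_cancel_left]; exact ht.c
          refine ⟨(g, p) :: (T.opp e, p) :: l',
            Run.up h1 (by rw [hvg]; exact h2) ?_ ?_, ?_, ?_, ?_, ?_⟩
          · rw [hopp, hn', hX]; exact h7
          · rw [hopp, hn']; exact hrun
          · intro s hs
            rcases List.mem_cons.1 hs with rfl | hs
            · simp only [hvg]; exact hV0
            · rcases List.mem_cons.1 hs with rfl | hs
              · exact ⟨hV0.1, by simp only [hX]; exact hXV⟩
              · exact hV' s hs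
          · intro s hs
            rcases List.mem_cons.1 hs with rfl | hs
            · exact Or.inl ⟨(g, p), by simp, rfl⟩
            · rcases List.mem_cons.1 hs with rfl | hs
              · exact Or.inr (Or.inr rfl)
              · rcases hm' s hs with ⟨s', hs', h⟩ | h
                · exact Or.inl ⟨s', by simp [hs'], h⟩
                · exact Or.inr h
          · simp only [meas_cons, hvg]; omega
          · intro _
            simp only [meas_cons, hvg]; omega
        | @down _ _ l2 h5 h6 h7 h8 =>
          have hl2 : l2.length ≤ n := by
            simp only [List.length_cons] at hl1; omega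
          obtain ⟨l', hr', hV', hm', hme, hme'⟩ := ih hl2 h8 hdne
            (fun s hs => hV1 s (by simp [hs]))
          refine ⟨(g, p) :: l',
            Run.down h1 (by rw [hvg]; exact h2) ?_ ?_, ?_, ?_, ?_, ?_⟩
          · rw [hopp, hn', hX]; exact h7
          · rw [hopp, hn', hp', hX]; exact hr'
          · intro s hs
            rcases List.mem_cons.1 hs with rfl | hs
            · simp only [hvg]; exact hV0
            · exact hV' s hs
          · intro s hs
            rcases List.mem_cons.1 hs with rfl | hs
            · exact Or.inl ⟨(g, p), by simp, rfl⟩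
            · rcases hm' s hs with ⟨s', hs', h⟩ | h
              · exact Or.inl ⟨s', by simp [hs'], h⟩
              · exact Or.inr h
          · simp only [meas_cons, hvg]; omega
          · intro _
            simp only [meas_cons, hvg]; omega
      · have hna : T.opp g ≠ T.next e := by
          intro h; exact hg1 (by rw [h, prev_next])
        obtain ⟨hn, hpv⟩ := next_keep hf ht hg hgp hna hnb
        obtain ⟨l', hr', hV', hm', hme, hme'⟩ := ih hl1 h4 hg1 hV1
        have hvk := vec_keep hf ht hg1 h4.pos
        -- the dart next (opp g) is not e nor opp e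
        have hne1 : T.next (T.opp g) ≠ e := fun h => hnb (eq_prev_of_next T h)
        have hne2 : T.next (T.opp g) ≠ T.opp e := by
          intro h
          have h6 : T.opp g = T.prev (T.opp e) := eq_prev_of_next T h
          have h7 := ht.d.nonneg
          rw [← h6, T.vec_opp, cr_neg_r] at h7
          linarith
        have hvn : T'.vec (T.next (T.opp g)) = T.vec (T.next (T.opp g)) := hf.vec_ne _ hne1 hne2
        refine ⟨(g, p) :: l', Run.down h1 (by rw [hvg]; exact h2) ?_ ?_, ?_, ?_, ?_, ?_⟩
        · rw [hopp, hn, hvn]; exact h3
        · rw [hopp, hn, hpv, hvn]; exact hr'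
        · intro s hs
          rcases List.mem_cons.1 hs with rfl | hs
          · simp only [hvg]; exact hV0
          · exact hV' s hs
        · intro s hs
          rcases List.mem_cons.1 hs with rfl | hs
          · exact Or.inl ⟨(g, p), by simp, rfl⟩
          · rcases hm' s hs with ⟨s', hs', h⟩ | h
            · exact Or.inl ⟨s', by simp [hs'], h⟩
            · exact Or.inr h
        · simp only [meas_cons, hvg]; omega
        · rintro ⟨s, hs, hse⟩
          rcases List.mem_cons.1 hs with rfl | hs
          · exact absurd hse hg
          · have := hme' ⟨s, hs, hse⟩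
            simp only [meas_cons, hvg]; omega

end flip

end Pool.Agent.Helper60.G1
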